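import Mathlib

set_option autoImplicit false

/-!
Abstract part of the proof of the extended Wilf inequality in dimension at least two.
`M` is a linearly ordered cancellative monoid, all elements nonnegative, with finite lower sets.
-/

namespace Pool.Agent.Helper28.Wilf

open Finset

/-- The data: a submonoid `S` with largest missing element `f` and least nonzero element `μ`. -/
structure Data (M : Type*) [AddCommMonoid M] [LinearOrder M] [IsOrderedCancelAddMonoid M] where
  nonneg : ∀ x : M, 0 ≤ x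
  fin : ∀ b : M, (Set.Iic b).Finite
  S : AddSubmonoid M
  f : M
  f_notMem : f ∉ S
  le_f : ∀ x, x ∉ S → x ≤ f
  μ : M
  μ_mem : μ ∈ S
  μ_ne : μ ≠ 0
  μ_le : ∀ s ∈ S, s ≠ 0 → μ ≤ s

namespace Data

variable {M : Type*} [AddCommMonoid M] [LinearOrder M] [IsOrderedCancelAddMonoid M] (D : Data M)

theorem μ_pos : 0 < D.μ := lt_of_le_of_ne (D.nonneg _) (Ne.symm D.μ_ne)

include D in
theorem pos_of_ne {x : M} (h : x ≠ 0) : 0 < x := lt_of_le_of_ne (D.nonneg _) (Ne.symm h)

theorem mem_of_gt {x : M} (h : D.f < x) : x ∈ D.S := by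
  by_contra hx
  exact absurd (D.le_f x hx) (not_le.2 h)

theorem exists_gt (x v : M) (hv : 0 < v) : ∃ k : ℕ, D.f < x + k • v := by
  by_contra h
  push Not at h
  have hinj : Function.Injective (fun k : ℕ => x + k • v) := by
    intro a b hab
    have := (nsmul_left_strictMono hv).injective (add_left_cancel hab)
    exact this
  exact Set.infinite_of_injective_forall_mem hinj (fun k => (h k : x + k • v ∈ Set.Iic D.f))
    (D.fin D.f)

/-- number of `k ≥ 0` with `x + k v ≤ f`. -/
noncomputable def cnt (v x : M) : ℕ := sInf {k : ℕ | D.f < x + k • v}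

theorem lt_cnt_iff {v : M} (hv : 0 < v) (x : M) (k : ℕ) : k < D.cnt v x ↔ x + k • v ≤ D.f := by
  constructor
  · intro h
    have := Nat.notMem_of_lt_sInf h
    exact not_lt.1 this
  · intro h
    by_contra hk
    push Not at hk
    have hmem : D.f < x + (D.cnt v x) • v := Nat.sInf_mem (D.exists_gt x v hv)
    have : x + (D.cnt v x) • v ≤ x + k • v :=
      add_le_add_right (nsmul_le_nsmul_left hv.le hk) x
    exact absurd (hmem.trans_le this) (not_lt.2 h)

theorem cnt_le_iff {v : M} (hv : 0 < v) (x : M) (k : ℕ) : D.cnt v x ≤ k ↔ D.f < x + k • v := by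
  rw [← not_lt, D.lt_cnt_iff hv, not_le]

/-- number of `k ≥ 0` with `x + k μ ≤ f`. -/
noncomputable def h (x : M) : ℕ := D.cnt D.μ x

theorem lt_h (x : M) (k : ℕ) : k < D.h x ↔ x + k • D.μ ≤ D.f := D.lt_cnt_iff D.μ_pos x k

theorem h_le (x : M) (k : ℕ) : D.h x ≤ k ↔ D.f < x + k • D.μ := D.cnt_le_iff D.μ_pos x k

theorem lt_add_h (x : M) : D.f < x + D.h x • D.μ := (D.h_le x _).1 le_rfl

theorem h_pos_iff (x : M) : 0 < D.h x ↔ x ≤ D.f := by
  rw [D.lt_h]; simp

theorem h_anti {x y : M} (hxy : x ≤ y) : D.h y ≤ D.h x := by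
  rw [D.h_le]
  exact (D.lt_add_h x).trans_le (add_le_add_left hxy _)

/-- elements `x` all of whose proper differences `x - s`, `s ∈ S` nonzero, are at most `f`. -/
def W : Set M := {x | ∀ s ∈ D.S, s ≠ 0 → ∀ u, u + s = x → u ≤ D.f}

theorem W_down {x y u : M} (hx : x ∈ D.W) (h : y + u = x) : y ∈ D.W := by
  intro s hs hs0 w hw
  have h1 : (w + u) + s = x := by rw [← h, ← hw]; abel
  have h2 := hx s hs hs0 (w + u) h1
  exact (le_add_of_nonneg_right (D.nonneg u)).trans h2

theorem W_of_le {x : M} (hx : x ≤ D.f) : x ∈ D.W := by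
  intro s _ _ u hu
  rw [← hu] at hx
  exact (le_add_of_nonneg_right (D.nonneg s)).trans hx

/-- Apery-type elements. -/
def A : Set M := {a | a ∈ D.S ∧ a ∈ D.W ∧ ∀ u ∈ D.S, u + D.μ ≠ a}

/-- irreducible elements, that is the minimal generators. -/
def G : Set M := {x | x ∈ D.S ∧ x ≠ 0 ∧ ∀ a ∈ D.S, ∀ b ∈ D.S, a + b = x → a = 0 ∨ b = 0}

/-- elements of `W` that are not of the form `u + μ`. -/
def T : Set M := {z | z ∈ D.W ∧ ∀ u, u + D.μ ≠ z}

theorem A_down {a s t : M} (ha : a ∈ D.A) (hs : s ∈ D.S) (ht : t ∈ D.S) (h : s + t = a) :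
    s ∈ D.A := by
  refine ⟨hs, D.W_down ha.2.1 h, ?_⟩
  intro u hu hus
  exact ha.2.2 (u + t) (D.S.add_mem hu ht) (by rw [← h, ← hus]; abel)

theorem zero_mem_W : (0 : M) ∈ D.W := D.W_of_le (D.nonneg _)

theorem zero_notDiv (u : M) : u + D.μ ≠ 0 := by
  intro h
  have : D.μ ≤ 0 := by
    rw [← h]; exact le_add_of_nonneg_left (D.nonneg u)
  exact absurd this (not_le.2 D.μ_pos)

theorem zero_mem_A : (0 : M) ∈ D.A :=
  ⟨D.S.zero_mem, D.zero_mem_W, fun u _ => D.zero_notDiv u⟩

theorem zero_mem_T : (0 : M) ∈ D.T := ⟨D.zero_mem_W, D.zero_notDiv⟩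

include D in
theorem add_eq_zero' {a b : M} (h : a + b = 0) : a = 0 := by
  by_contra ha
  have h1 := D.pos_of_ne ha
  have : a ≤ 0 := by rw [← h]; exact le_add_of_nonneg_right (D.nonneg b)
  exact absurd this (not_le.2 h1)

theorem μ_mem_G : D.μ ∈ D.G := by
  refine ⟨D.μ_mem, D.μ_ne, ?_⟩
  intro a ha b hb hab
  by_contra hcon
  push Not at hcon
  have h1 := D.μ_le a ha hcon.1
  have h2 := D.pos_of_ne hcon.2
  have h3 : D.μ < a + b := lt_of_le_of_lt h1 (lt_add_of_pos_right a h2)
  exact absurd hab h3.ne'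

theorem G_sub_A {g : M} (hg : g ∈ D.G) (hne : g ≠ D.μ) : g ∈ D.A := by
  refine ⟨hg.1, ?_, ?_⟩
  · intro s hs hs0 u hu
    by_contra hcon
    push Not at hcon
    have huS := D.mem_of_gt hcon
    rcases hg.2.2 u huS s hs hu with h | h
    · rw [h] at hcon
      exact absurd hcon (not_lt.2 (D.nonneg _))
    · exact hs0 h
  · intro u hu hug
    rcases hg.2.2 u hu D.μ D.μ_mem hug with h | h
    · rw [h, zero_add] at hug
      exact hne hug.symm
    · exact D.μ_ne h

theorem μ_notMem_A : D.μ ∉ D.A := fun h => h.2.2 0 D.S.zero_mem (zero_add _)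

/-- `σ z` is the least `k` with `z + k μ ∈ S`. -/
noncomputable def σ (z : M) : ℕ := sInf {k : ℕ | z + k • D.μ ∈ D.S}

/-- the first element of `S` in the chain of `z`. -/
noncomputable def ap (z : M) : M := z + D.σ z • D.μ

theorem ap_mem (z : M) : D.ap z ∈ D.S :=
  Nat.sInf_mem (s := {k : ℕ | z + k • D.μ ∈ D.S}) ⟨D.h z, D.mem_of_gt (D.lt_add_h z)⟩

theorem σ_le (z : M) : D.σ z ≤ D.h z := Nat.sInf_le (D.mem_of_gt (D.lt_add_h z))

theorem notMem_of_lt_σ {z : M} {k : ℕ} (hk : k < D.σ z) : z + k • D.μ ∉ D.S :=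
  Nat.notMem_of_lt_sInf hk

theorem h_eq (z : M) : D.h z = D.σ z + D.h (D.ap z) := by
  apply le_antisymm
  · rw [D.h_le, add_nsmul, ← add_assoc]
    exact D.lt_add_h (D.ap z)
  · by_contra hcon
    push Not at hcon
    have hs := D.σ_le z
    have h1 : D.h z - D.σ z < D.h (D.ap z) := by omega
    rw [D.lt_h, ap, add_assoc, ← add_nsmul] at h1
    have h2 : D.σ z + (D.h z - D.σ z) = D.h z := by omega
    rw [h2] at h1
    exact absurd (D.lt_add_h z) (not_lt.2 h1)

theorem ap_mem_A {z : M} (hz : z ∈ D.T) : D.ap z ∈ D.A := by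
  refine ⟨D.ap_mem z, ?_, ?_⟩
  · rcases Nat.eq_zero_or_pos (D.σ z) with h0 | h0
    · have : D.ap z = z := by rw [ap, h0]; simp
      rw [this]; exact hz.1
    · intro s hs hs0 u hu
      have h1 : z + (D.σ z - 1) • D.μ ≤ D.f :=
        D.le_f _ (D.notMem_of_lt_σ (by omega))
      have h2 : D.ap z = z + (D.σ z - 1) • D.μ + D.μ := by
        rw [ap, add_assoc, ← succ_nsmul]
        congr 2; omega
      have h3 : u + D.μ ≤ z + (D.σ z - 1) • D.μ + D.μ := by
        rw [← h2, ← hu]
        exact add_le_add_right (D.μ_le s hs hs0) u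
      exact (le_of_add_le_add_right h3).trans h1
  · intro u hu huz
    rcases Nat.eq_zero_or_pos (D.σ z) with h0 | h0
    · have : D.ap z = z := by rw [ap, h0]; simp
      rw [this] at huz
      exact hz.2 u huz
    · have h2 : D.ap z = z + (D.σ z - 1) • D.μ + D.μ := by
        rw [ap, add_assoc, ← succ_nsmul]
        congr 2; omega
      rw [h2] at huz
      have h3 := add_right_cancel huz
      rw [h3] at hu
      exact D.notMem_of_lt_σ (by omega) hu

theorem ap_injOn : Set.InjOn D.ap D.T := by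
  have key : ∀ x ∈ D.T, ∀ y ∈ D.T, D.ap x = D.ap y → D.σ x ≤ D.σ y → x = y := by
    intro x hx y hy hxy hle
    have h1 : x = y + (D.σ y - D.σ x) • D.μ := by
      have : x + D.σ x • D.μ = y + (D.σ y - D.σ x) • D.μ + D.σ x • D.μ := by
        rw [add_assoc, ← add_nsmul]
        have h2 : D.σ y - D.σ x + D.σ x = D.σ y := by omega
        rw [h2]; exact hxy
      exact add_right_cancel this
    rcases Nat.eq_zero_or_pos (D.σ y - D.σ x) with h0 | h0
    · rw [h0] at h1; simpa using h1
    · exfalso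
      apply hx.2 (y + (D.σ y - D.σ x - 1) • D.μ)
      rw [add_assoc, ← succ_nsmul]
      have h2 : D.σ y - D.σ x - 1 + 1 = D.σ y - D.σ x := by omega
      rw [h2]; exact h1.symm
  intro x hx y hy hxy
  rcases le_total (D.σ x) (D.σ y) with h | h
  · exact key x hx y hy hxy h
  · exact (key y hy x hx hxy.symm h).symm

/-- every element is `z + k μ` with `z` not of the form `u + μ`. -/
theorem exists_chain (x : M) : ∃ z, ∃ k : ℕ, (∀ u, u + D.μ ≠ z) ∧ z + k • D.μ = x := by
  have key : ∀ n : ℕ, ∀ x : M, (D.fin x).toFinset.card ≤ n →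
      ∃ z, ∃ k : ℕ, (∀ u, u + D.μ ≠ z) ∧ z + k • D.μ = x := by
    intro n
    induction n with
    | zero =>
      intro x hx
      exfalso
      have : x ∈ (D.fin x).toFinset := by simp
      have := Finset.card_pos.2 ⟨x, this⟩
      omega
    | succ n ih =>
      intro x hx
      by_cases hd : ∃ u, u + D.μ = x
      · obtain ⟨u, hu⟩ := hd
        have hlt : u < x := by rw [← hu]; exact lt_add_of_pos_right u D.μ_pos
        have hss : (D.fin u).toFinset ⊂ (D.fin x).toFinset := by
          rw [Finset.ssubset_iff_of_subset]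
          · exact ⟨x, by simp, by simp [hlt]⟩
          · intro y hy
            simp only [Set.Finite.mem_toFinset, Set.mem_Iic] at hy ⊢
            exact hy.trans hlt.le
        have hc := Finset.card_lt_card hss
        obtain ⟨z, k, hz, hk⟩ := ih u (by omega)
        exact ⟨z, k + 1, hz, by rw [succ_nsmul, ← add_assoc, hk, hu]⟩
      · push Not at hd
        exact ⟨x, 0, hd, by simp⟩
  exact key _ x le_rfl

end Data

end Pool.Agent.Helper28.Wilf
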