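import Pool.Agent.Helper28.Wilf.Basic

set_option autoImplicit false

/-!
Factorizations, the double counting inequality, and the reduction of the main inequality to a
statement about the function `h` on the set `T`.
-/

namespace Pool.Agent.Helper28.Wilf

open Finset

namespace Data

variable {M : Type*} [AddCommMonoid M] [LinearOrder M] [IsOrderedCancelAddMonoid M] (D : Data M)

include D in
theorem induct (P : M → Prop) (hP : ∀ x, (∀ y, y < x → P y) → P x) (x : M) : P x := by
  have key : ∀ n : ℕ, ∀ x : M, (D.fin x).toFinset.card ≤ n → P x := by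
    intro n
    induction n with
    | zero =>
      intro x hx
      exfalso
      have : x ∈ (D.fin x).toFinset := by simp
      have := Finset.card_pos.2 ⟨x, this⟩
      omega
    | succ n ih =>
      intro x hx
      apply hP
      intro y hy
      apply ih
      have hss : (D.fin y).toFinset ⊂ (D.fin x).toFinset := by
        rw [Finset.ssubset_iff_of_subset]
        · exact ⟨x, by simp, by simp [hy]⟩
        · intro z hz
          simp only [Set.Finite.mem_toFinset, Set.mem_Iic] at hz ⊢
          exact hz.trans hy.le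
      have := Finset.card_lt_card hss
      omega
  exact key _ x le_rfl

theorem A_sub_W : D.A ⊆ D.W := fun _ ha => ha.2.1

theorem T_sub_W : D.T ⊆ D.W := fun _ hz => hz.1

section fin

variable (hW : D.W.Finite)

/-- `A` as a finset -/
noncomputable def AF : Finset M := (hW.subset D.A_sub_W).toFinset

/-- `T` as a finset -/
noncomputable def TF : Finset M := (hW.subset D.T_sub_W).toFinset

theorem mem_AF (a : M) : a ∈ D.AF hW ↔ a ∈ D.A := by simp [AF]

theorem mem_TF (a : M) : a ∈ D.TF hW ↔ a ∈ D.T := by simp [TF]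

/-- the generators different from `μ` -/
noncomputable def GF : Finset M := by
  classical exact (D.AF hW).filter (fun g => g ∈ D.G)

theorem mem_GF (g : M) : g ∈ D.GF hW ↔ g ∈ D.A ∧ g ∈ D.G := by
  simp [GF, mem_AF]

theorem G_eq : D.G = insert D.μ (↑(D.GF hW) : Set M) := by
  ext g
  rw [Set.mem_insert_iff, Finset.mem_coe, mem_GF]
  constructor
  · intro hg
    by_cases h : g = D.μ
    · exact Or.inl h
    · exact Or.inr ⟨D.G_sub_A hg h, hg⟩
  · rintro (h | h)
    · rw [h]; exact D.μ_mem_G
    · exact h.2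

theorem G_ncard : D.G.ncard = (D.GF hW).card + 1 := by
  rw [D.G_eq hW, Set.ncard_insert_of_notMem, Set.ncard_coe_finset]
  rw [Finset.mem_coe, mem_GF]
  exact fun h => D.μ_notMem_A h.1

/-- the value of a vector of multiplicities -/
noncomputable def val (l : D.GF hW → ℕ) : M := ∑ i, l i • (i : M)

theorem val_mem (l : D.GF hW → ℕ) : D.val hW l ∈ D.S := by
  apply AddSubmonoid.sum_mem
  intro i _
  exact D.S.nsmul_mem ((D.mem_GF hW i).1 i.2).1.1 _

theorem val_add (l l' : D.GF hW → ℕ) : D.val hW (l + l') = D.val hW l + D.val hW l' := by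
  simp [val, add_nsmul, Finset.sum_add_distrib]

theorem val_single (i : D.GF hW) : D.val hW (Pi.single i 1) = i := by
  classical
  rw [val, Finset.sum_eq_single i]
  · simp
  · intro b _ hb
    simp [hb]
  · intro h; exact absurd (Finset.mem_univ i) h

theorem exists_rep (a : M) (ha : a ∈ D.A) : ∃ l : D.GF hW → ℕ, D.val hW l = a := by
  revert ha
  apply D.induct (fun a => a ∈ D.A → ∃ l : D.GF hW → ℕ, D.val hW l = a)
  intro x ih hx
  by_cases h0 : x = 0
  · exact ⟨0, by simp [val, h0]⟩
  by_cases hg : x ∈ D.G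
  · exact ⟨Pi.single ⟨x, (D.mem_GF hW x).2 ⟨hx, hg⟩⟩ 1, D.val_single hW _⟩
  · have : ∃ s ∈ D.S, ∃ t ∈ D.S, s + t = x ∧ s ≠ 0 ∧ t ≠ 0 := by
      by_contra hcon
      push Not at hcon
      apply hg
      refine ⟨hx.1, h0, ?_⟩
      intro s hs t ht hst
      by_contra hne
      push Not at hne
      exact hne.2 (hcon s hs t ht hst hne.1)
    obtain ⟨s, hs, t, ht, hst, hs0, ht0⟩ := this
    have hsA : s ∈ D.A := D.A_down hx hs ht hst
    have htA : t ∈ D.A := D.A_down hx ht hs (by rw [add_comm]; exact hst)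
    have hsx : s < x := by rw [← hst]; exact lt_add_of_pos_right s (D.pos_of_ne ht0)
    have htx : t < x := by rw [← hst]; exact lt_add_of_pos_left t (D.pos_of_ne hs0)
    obtain ⟨l, hl⟩ := ih s hsx hsA
    obtain ⟨l', hl'⟩ := ih t htx htA
    exact ⟨l + l', by rw [val_add, hl, hl', hst]⟩

/-- the lexicographically least factorization -/
noncomputable def lam (a : M) : D.GF hW → ℕ := by
  classical
  exact if h : ({l : Lex (D.GF hW → ℕ) | D.val hW (ofLex l) = a}).Nonempty then
    ofLex (WellFounded.min wellFounded_lt {l : Lex (D.GF hW → ℕ) | D.val hW (ofLex l) = a} h)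
  else 0

theorem val_lam {a : M} (ha : a ∈ D.A) : D.val hW (D.lam hW a) = a := by
  classical
  obtain ⟨l, hl⟩ := D.exists_rep hW a ha
  have hne : ({l : Lex (D.GF hW → ℕ) | D.val hW (ofLex l) = a}).Nonempty := ⟨toLex l, hl⟩
  rw [lam, dif_pos hne]
  exact WellFounded.min_mem wellFounded_lt {l : Lex (D.GF hW → ℕ) | D.val hW (ofLex l) = a} hne

theorem lam_le {a : M} (l : D.GF hW → ℕ) (hl : D.val hW l = a) :
    toLex (D.lam hW a) ≤ toLex l := by
  classical
  have hne : ({l : Lex (D.GF hW → ℕ) | D.val hW (ofLex l) = a}).Nonempty := ⟨toLex l, hl⟩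
  rw [lam, dif_pos hne]
  exact not_lt.1 (WellFounded.not_lt_min wellFounded_lt
    {l : Lex (D.GF hW → ℕ) | D.val hW (ofLex l) = a} (x := toLex l) hl)

theorem lam_pred {a b : M} (ha : a ∈ D.A) (i : D.GF hW) (hi : 0 < D.lam hW a i)
    (hb : b + i = a) : b ∈ D.A ∧ D.lam hW a = D.lam hW b + Pi.single i 1 := by
  classical
  set l' : D.GF hW → ℕ := D.lam hW a - Pi.single i 1 with hl'
  have h1 : l' + Pi.single i 1 = D.lam hW a := by
    funext j
    simp only [hl', Pi.add_apply, Pi.sub_apply]
    by_cases hj : j = i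
    · subst hj; simp; omega
    · simp [hj]
  have h2 : D.val hW l' = b := by
    have : D.val hW l' + i = b + i := by
      rw [hb, ← D.val_lam hW ha, ← h1, val_add, val_single]
    exact add_right_cancel this
  have hbS : b ∈ D.S := by rw [← h2]; exact D.val_mem hW l'
  have hbA : b ∈ D.A := D.A_down ha hbS ((D.mem_GF hW i).1 i.2).1.1 hb
  refine ⟨hbA, ?_⟩
  have h3 : toLex (D.lam hW b) ≤ toLex l' := D.lam_le hW l' h2
  have h4 : toLex (D.lam hW a) ≤ toLex (D.lam hW b + Pi.single i 1) := by
    apply D.lam_le hW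
    rw [val_add, val_single, D.val_lam hW hbA, hb]
  have h5 : toLex l' ≤ toLex (D.lam hW b) := by
    have h6 : toLex l' + toLex (Pi.single i 1 : D.GF hW → ℕ)
        ≤ toLex (D.lam hW b) + toLex (Pi.single i 1 : D.GF hW → ℕ) := by
      have h7 : toLex l' + toLex (Pi.single i 1 : D.GF hW → ℕ) = toLex (D.lam hW a) := by
        rw [← h1]; rfl
      rw [h7]; exact h4
    exact le_of_add_le_add_right h6
  have h8 : l' = D.lam hW b := toLex.injective (le_antisymm h5 h3)
  rw [← h1, h8]

/-- a chosen difference -/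
noncomputable def pred (a g : M) : M := by
  classical exact if h : ∃ b, b + g = a then h.choose else 0

omit [LinearOrder M] [IsOrderedCancelAddMonoid M] in
theorem pred_add {a g : M} (h : ∃ b, b + g = a) : pred a g + g = a := by
  classical
  rw [pred, dif_pos h]; exact h.choose_spec

theorem exists_pred {a : M} (ha : a ∈ D.A) (i : D.GF hW) (hi : 0 < D.lam hW a i) :
    ∃ b, b + (i : M) = a := by
  classical
  refine ⟨D.val hW (D.lam hW a - Pi.single i 1), ?_⟩
  have h1 : (D.lam hW a - Pi.single i 1) + Pi.single i 1 = D.lam hW a := by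
    funext j
    simp only [Pi.add_apply, Pi.sub_apply]
    by_cases hj : j = i
    · subst hj; simp; omega
    · simp [hj]
  conv_rhs => rw [← D.val_lam hW ha, ← h1, val_add, val_single]

theorem pred_spec {a : M} (ha : a ∈ D.A) (i : D.GF hW) (hi : 0 < D.lam hW a i) :
    pred a (i : M) + i = a ∧ pred a (i : M) ∈ D.A ∧
      D.lam hW a i = D.lam hW (pred a (i : M)) i + 1 := by
  classical
  have h1 := pred_add (D.exists_pred hW ha i hi)
  obtain ⟨h2, h3⟩ := D.lam_pred hW ha i hi h1
  refine ⟨h1, h2, ?_⟩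
  rw [h3]; simp

theorem h_pred_gt {a : M} (ha : a ∈ D.A) (i : D.GF hW) (hi : 0 < D.lam hW a i) :
    D.h a < D.h (pred a (i : M)) := by
  obtain ⟨h1, h2, -⟩ := D.pred_spec hW ha i hi
  have hiS := ((D.mem_GF hW i).1 i.2).1.1
  have hi0 : (i : M) ≠ 0 := ((D.mem_GF hW i).1 i.2).2.2.1
  rw [D.lt_h]
  rcases Nat.eq_zero_or_pos (D.h a) with h0 | h0
  · rw [h0]; simp only [zero_nsmul, add_zero]
    exact ha.2.1 i hiS hi0 _ h1
  · have h3 : a + (D.h a - 1) • D.μ ≤ D.f := (D.lt_h a _).1 (by omega)
    have h4 : pred a (i : M) + D.h a • D.μ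
        = pred a (i : M) + D.μ + (D.h a - 1) • D.μ := by
      have : D.h a = (D.h a - 1) + 1 := by omega
      conv_lhs => rw [this, succ_nsmul]
      abel
    rw [h4]
    refine le_trans ?_ h3
    apply add_le_add_left
    calc pred a (i : M) + D.μ ≤ pred a (i : M) + i := add_le_add_right (D.μ_le i hiS hi0) _
      _ = a := h1

/-- `ℓ(a) = h(a) + ∑ (h(a - g) - h(a))` over the chosen factorization of `a`. -/
noncomputable def ell (a : M) : ℕ :=
  D.h a + ∑ i : D.GF hW, D.lam hW a i * (D.h (pred a (i : M)) - D.h a)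

theorem double_count (i : D.GF hW) :
    ∑ a ∈ D.AF hW, D.lam hW a i * D.h (pred a (i : M))
      ≤ ∑ a ∈ D.AF hW, (D.lam hW a i + 1) * D.h a := by
  classical
  set F : M → ℕ := fun b => (D.lam hW b i + 1) * D.h b with hF
  have h1 : ∑ a ∈ D.AF hW, D.lam hW a i * D.h (pred a (i : M))
      = ∑ a ∈ (D.AF hW).filter (fun a => 0 < D.lam hW a i), F (pred a (i : M)) := by
    rw [Finset.sum_filter]
    apply Finset.sum_congr rfl
    intro a ha
    split_ifs with h
    · rw [hF]; simp only
      rw [(D.pred_spec hW ((D.mem_AF hW a).1 ha) i h).2.2]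
    · have : D.lam hW a i = 0 := by omega
      rw [this, zero_mul]
  rw [h1]
  have hinj : Set.InjOn (fun a => pred a (i : M))
      ↑((D.AF hW).filter (fun a => 0 < D.lam hW a i)) := by
    intro a ha b hb hab
    simp only [Finset.coe_filter, Set.mem_ofPred_eq] at ha hb
    have ha1 := (D.pred_spec hW ((D.mem_AF hW a).1 ha.1) i ha.2).1
    have hb1 := (D.pred_spec hW ((D.mem_AF hW b).1 hb.1) i hb.2).1
    simp only at hab
    rw [← ha1, ← hb1, hab]
  rw [← Finset.sum_image (f := F) hinj]
  apply Finset.sum_le_sum_of_subset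
  intro b hb
  obtain ⟨a, ha, rfl⟩ := Finset.mem_image.1 hb
  rw [Finset.mem_filter] at ha
  exact (D.mem_AF hW _).2 (D.pred_spec hW ((D.mem_AF hW a).1 ha.1) i ha.2).2.1

theorem sum_ell_le : ∑ a ∈ D.AF hW, D.ell hW a
    ≤ ((D.GF hW).card + 1) * ∑ a ∈ D.AF hW, D.h a := by
  have h1 : ∑ a ∈ D.AF hW, D.ell hW a
      + ∑ a ∈ D.AF hW, ∑ i : D.GF hW, D.lam hW a i * D.h a
      = ∑ a ∈ D.AF hW, D.h a
        + ∑ a ∈ D.AF hW, ∑ i : D.GF hW, D.lam hW a i * D.h (pred a (i : M)) := by
    rw [← Finset.sum_add_distrib, ← Finset.sum_add_distrib]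
    apply Finset.sum_congr rfl
    intro a ha
    rw [ell, add_assoc, ← Finset.sum_add_distrib]
    congr 1
    apply Finset.sum_congr rfl
    intro i _
    rcases Nat.eq_zero_or_pos (D.lam hW a i) with h0 | h0
    · rw [h0]; simp
    · have := D.h_pred_gt hW ((D.mem_AF hW a).1 ha) i h0
      rw [← mul_add]
      congr 1; omega
  have h2 : ∑ a ∈ D.AF hW, ∑ i : D.GF hW, D.lam hW a i * D.h (pred a (i : M))
      ≤ ∑ a ∈ D.AF hW, ∑ i : D.GF hW, (D.lam hW a i + 1) * D.h a := by
    rw [Finset.sum_comm, Finset.sum_comm (s := D.AF hW)]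
    exact Finset.sum_le_sum (fun i _ => D.double_count hW i)
  have h3 : ∑ a ∈ D.AF hW, ∑ i : D.GF hW, (D.lam hW a i + 1) * D.h a
      = ∑ a ∈ D.AF hW, ∑ i : D.GF hW, D.lam hW a i * D.h a
        + (D.GF hW).card * ∑ a ∈ D.AF hW, D.h a := by
    rw [Finset.mul_sum, ← Finset.sum_add_distrib]
    apply Finset.sum_congr rfl
    intro a _
    have : ∀ i : D.GF hW, (D.lam hW a i + 1) * D.h a = D.lam hW a i * D.h a + D.h a := by
      intro i; ring
    rw [Finset.sum_congr rfl (fun i _ => this i), Finset.sum_add_distrib]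
    simp
  have h4 : ((D.GF hW).card + 1) * ∑ a ∈ D.AF hW, D.h a
      = (D.GF hW).card * ∑ a ∈ D.AF hW, D.h a + ∑ a ∈ D.AF hW, D.h a := by ring
  omega

/-- number of factors -/
noncomputable def len (a : M) : ℕ := ∑ i : D.GF hW, D.lam hW a i

/-- the sum in `ell` -/
noncomputable def exc (a : M) : ℕ :=
  ∑ i : D.GF hW, D.lam hW a i * (D.h (pred a (i : M)) - D.h a)

theorem ell_eq (a : M) : D.ell hW a = D.h a + D.exc hW a := rfl

theorem len_le_exc {a : M} (ha : a ∈ D.A) : D.len hW a ≤ D.exc hW a := by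
  apply Finset.sum_le_sum
  intro i _
  rcases Nat.eq_zero_or_pos (D.lam hW a i) with h0 | h0
  · rw [h0]; simp
  · have := D.h_pred_gt hW ha i h0
    exact Nat.le_mul_of_pos_right _ (by omega)

theorem len_pos {a : M} (ha : a ∈ D.A) (h0 : a ≠ 0) : 1 ≤ D.len hW a := by
  by_contra hcon
  have h1 : D.len hW a = 0 := by omega
  rw [len, Finset.sum_eq_zero_iff] at h1
  apply h0
  rw [← D.val_lam hW ha, val]
  apply Finset.sum_eq_zero
  intro i hi
  rw [h1 i hi, zero_nsmul]

theorem bound {a : M} (ha : a ∈ D.A) (h0 : a ≠ 0) (J : ℕ)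
    (hJ : a + D.h a • D.μ ≤ D.f + J • D.μ) :
    D.h 0 ≤ (D.len hW a - 1) * J + D.h a + D.exc hW a := by
  have hlen := D.len_pos hW ha h0
  -- the strict inequality, summed over the factorization
  have h1 : D.len hW a • D.f
      < ∑ i : D.GF hW, D.lam hW a i • (pred a (i : M) + D.h (pred a (i : M)) • D.μ) := by
    rw [len, ← Finset.sum_nsmul_assoc]
    apply Finset.sum_lt_sum
    · intro i _
      exact nsmul_le_nsmul_right (D.lt_add_h _).le _
    · have : ∃ i ∈ (Finset.univ : Finset (D.GF hW)), D.lam hW a i ≠ 0 := by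
        by_contra hcon
        push Not at hcon
        have : D.len hW a = 0 := Finset.sum_eq_zero hcon
        omega
      obtain ⟨i, hi, hne⟩ := this
      refine ⟨i, hi, ?_⟩
      exact nsmul_lt_nsmul_right hne (D.lt_add_h _)
  -- rewrite the right-hand side
  have h2 : ∑ i : D.GF hW, D.lam hW a i • (pred a (i : M) + D.h (pred a (i : M)) • D.μ) + a
      = D.len hW a • (a + D.h a • D.μ) + D.exc hW a • D.μ := by
    have h3 : ∀ i : D.GF hW,
        D.lam hW a i • (pred a (i : M) + D.h (pred a (i : M)) • D.μ) + D.lam hW a i • (i : M)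
        = D.lam hW a i • (a + D.h a • D.μ)
          + (D.lam hW a i * (D.h (pred a (i : M)) - D.h a)) • D.μ := by
      intro i
      rcases Nat.eq_zero_or_pos (D.lam hW a i) with h0 | h0
      · rw [h0]; simp
      · have h4 := (D.pred_spec hW ha i h0).1
        have h5 := D.h_pred_gt hW ha i h0
        have h6 : D.h (pred a (i : M)) = D.h a + (D.h (pred a (i : M)) - D.h a) := by omega
        have h7 : pred a (i : M) + D.h (pred a (i : M)) • D.μ + (i : M)
            = a + D.h a • D.μ + (D.h (pred a (i : M)) - D.h a) • D.μ := by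
          conv_lhs => rw [h6]
          rw [add_nsmul]
          calc pred a (i : M) + (D.h a • D.μ + (D.h (pred a (i : M)) - D.h a) • D.μ) + (i : M)
              = (pred a (i : M) + i) + D.h a • D.μ
                + (D.h (pred a (i : M)) - D.h a) • D.μ := by abel
            _ = _ := by rw [h4]
        rw [← nsmul_add, h7, nsmul_add, mul_nsmul']
    calc ∑ i : D.GF hW, D.lam hW a i • (pred a (i : M) + D.h (pred a (i : M)) • D.μ) + a
        = ∑ i : D.GF hW, D.lam hW a i • (pred a (i : M) + D.h (pred a (i : M)) • D.μ)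
          + ∑ i : D.GF hW, D.lam hW a i • (i : M) := by
            congr 1
            exact (D.val_lam hW ha).symm
      _ = ∑ i : D.GF hW, (D.lam hW a i • (a + D.h a • D.μ)
          + (D.lam hW a i * (D.h (pred a (i : M)) - D.h a)) • D.μ) := by
            rw [← Finset.sum_add_distrib]
            exact Finset.sum_congr rfl (fun i _ => h3 i)
      _ = _ := by
            rw [Finset.sum_add_distrib, len, exc, Finset.sum_nsmul_assoc, Finset.sum_nsmul_assoc]
  have h4 : D.len hW a • D.f + a
      < D.len hW a • (a + D.h a • D.μ) + D.exc hW a • D.μ := by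
    rw [← h2]; exact add_lt_add_left h1 a
  obtain ⟨m, hm⟩ : ∃ m, D.len hW a = m + 1 := ⟨D.len hW a - 1, by omega⟩
  rw [hm] at h4 ⊢
  rw [D.h_le]
  simp only [Nat.add_sub_cancel, zero_add]
  have h5 : (m + 1) • (a + D.h a • D.μ) + D.exc hW a • D.μ
      ≤ m • (D.f + J • D.μ) + (a + D.h a • D.μ) + D.exc hW a • D.μ := by
    rw [succ_nsmul]
    exact add_le_add_left (add_le_add_left (nsmul_le_nsmul_right hJ m) _) _
  have h6 := h4.trans_le h5
  have h7 : (m + 1) • D.f + a = D.f + (m • D.f + a) := by rw [succ_nsmul]; abel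
  have h8 : m • (D.f + J • D.μ) + (a + D.h a • D.μ) + D.exc hW a • D.μ
      = (m * J + D.h a + D.exc hW a) • D.μ + (m • D.f + a) := by
    rw [nsmul_add, add_nsmul, add_nsmul, mul_nsmul' D.μ m J]; abel
  rw [h7, h8] at h6
  exact lt_of_add_lt_add_right h6

end fin

end Data

end Pool.Agent.Helper28.Wilf
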