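import Pool.Agent.Helper28.Wilf.Line

set_option autoImplicit false

/-!
Summation over a family of lines parallel to a coordinate axis.
-/

namespace Pool.Agent.Helper28.Wilf

open Finset

namespace Data

variable {M : Type*} [AddCommMonoid M] [LinearOrder M] [IsOrderedCancelAddMonoid M] (D : Data M)
variable {d : ℕ} (c : M ≃+ (Fin d → ℕ))

/-- unit vectors -/
noncomputable def e (j : Fin d) : M := c.symm (Pi.single j 1)

omit [LinearOrder M] [IsOrderedCancelAddMonoid M] in
theorem c_e (j : Fin d) : c (e c j) = Pi.single j 1 := by simp [e]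

omit [LinearOrder M] [IsOrderedCancelAddMonoid M] in
theorem e_ne (j : Fin d) : e c j ≠ 0 := by
  intro h
  have h1 := c_e c j
  rw [h, map_zero] at h1
  have := congrFun h1 j
  simp at this

include D in
theorem e_pos (j : Fin d) : 0 < e c j := D.pos_of_ne (e_ne c j)

omit [LinearOrder M] [IsOrderedCancelAddMonoid M] in
theorem exists_add_iff (x z : M) : (∃ u, u + x = z) ↔ c x ≤ c z := by
  constructor
  · rintro ⟨u, rfl⟩
    rw [map_add]; exact le_add_of_nonneg_left (zero_le)
  · intro h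
    refine ⟨c.symm (c z - c x), ?_⟩
    apply c.injective
    rw [map_add, AddEquiv.apply_symm_apply]
    exact tsub_add_cancel_of_le h

include D in
theorem le_of_c_le {x z : M} (h : c x ≤ c z) : x ≤ z := by
  obtain ⟨u, hu⟩ := (exists_add_iff c x z).2 h
  rw [← hu]; exact le_add_of_nonneg_left (D.nonneg u)

omit [LinearOrder M] [IsOrderedCancelAddMonoid M] in
theorem c_add_nsmul (y : M) (j : Fin d) (t : ℕ) :
    c (y + t • e c j) = Function.update (c y) j (c y j + t) := by
  classical
  rw [map_add, map_nsmul, c_e]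
  funext l
  by_cases hl : l = j
  · subst hl; simp
  · simp [hl]

omit [LinearOrder M] [IsOrderedCancelAddMonoid M] in
theorem add_nsmul_eq (y : M) (j : Fin d) (t : ℕ) :
    y + t • e c j = c.symm (Function.update (c y) j (c y j + t)) := by
  rw [← c_add_nsmul, AddEquiv.symm_apply_apply]

section fin

variable (hW : D.W.Finite)

theorem family (j : Fin d) (c0 : ℕ) (R P : M → Prop) [DecidablePred R] [DecidablePred P]
    (H1 : ∀ z, R z → c0 ≤ c z j)
    (H2 : ∀ z, R z → ∀ k, c0 ≤ k → R (c.symm (Function.update (c z) j k)))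
    (H3 : ∀ z, R z → ∀ u, u + D.μ ≠ z)
    (H4 : ∀ y, R y → c y j = c0 → y ≤ D.f → P y →
      y + D.cnt (e c j) y • e c j ∈ D.W ∧
      (D.len hW (y + D.cnt (e c j) y • e c j) ≤ D.cnt (e c j) y ∨
        y + D.cnt (e c j) y • e c j ≤ D.f + D.μ))
    (H5 : ∀ y, R y → c y j = c0 → y ≤ D.f → ¬ P y → e c j ≤ y) :
    ∑ z ∈ (D.TP hW).filter R, 2 * D.h z
      + 2 * (((D.TP hW).filter R).filter (fun y => c y j = c0 ∧ P y)).card
      ≤ ∑ _z ∈ (D.TP hW).filter R, (D.h 0 + 1)
        + ∑ z ∈ (D.T0 hW).filter R, 2 * D.ell hW z := by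
  classical
  set v := e c j with hv
  have hvpos : 0 < v := D.e_pos c j
  set F := (D.TP hW).filter R with hF
  set Y := F.filter (fun y => c y j = c0) with hY
  set r : M → ℕ := fun y => D.cnt v y with hr
  have hmemF : ∀ z, z ∈ F ↔ (R z ∧ z ≤ D.f) := by
    intro z
    rw [hF, Finset.mem_filter, D.mem_TP]
    constructor
    · rintro ⟨⟨-, h1⟩, h2⟩; exact ⟨h2, h1⟩
    · rintro ⟨h1, h2⟩
      exact ⟨⟨⟨D.W_of_le h2, H3 z h1⟩, h2⟩, h1⟩
  have hmemY : ∀ y, y ∈ Y ↔ (R y ∧ y ≤ D.f) ∧ c y j = c0 := by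
    intro y; rw [hY, Finset.mem_filter, hmemF]
  -- moving along the line keeps `R`
  have hRmove : ∀ y ∈ Y, ∀ t : ℕ, R (y + t • v) := by
    intro y hy t
    have hy' := (hmemY y).1 hy
    rw [hv, add_nsmul_eq]
    exact H2 y hy'.1.1 _ (by omega)
  -- the base point of a line
  set base : M → M := fun z => c.symm (Function.update (c z) j c0) with hbase
  have hbase_add : ∀ z, R z → base z + (c z j - c0) • v = z := by
    intro z hz
    rw [hv, add_nsmul_eq, hbase]
    apply c.injective
    simp only [AddEquiv.apply_symm_apply, Function.update_self, Function.update_idem]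
    have : c0 + (c z j - c0) = c z j := by have := H1 z hz; omega
    rw [this, Function.update_eq_self]
  have hbase_of : ∀ y ∈ Y, ∀ t : ℕ, base (y + t • v) = y := by
    intro y hy t
    have hy' := (hmemY y).1 hy
    rw [hbase, hv]
    simp only
    rw [c_add_nsmul, Function.update_idem, ← hy'.2, Function.update_eq_self,
      AddEquiv.symm_apply_apply]
  have hcoord : ∀ y ∈ Y, ∀ t : ℕ, c (y + t • v) j = c0 + t := by
    intro y hy t
    have hy' := (hmemY y).1 hy
    rw [hv, c_add_nsmul, Function.update_self, hy'.2]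
  -- reorganise the sum over `F`
  have hsum : ∀ φ : M → ℕ, ∑ y ∈ Y, ∑ t ∈ range (r y), φ (y + t • v) = ∑ z ∈ F, φ z := by
    intro φ
    rw [Finset.sum_sigma']
    apply Finset.sum_bij' (i := fun p _ => p.1 + p.2 • v)
      (j := fun z _ => (⟨base z, c z j - c0⟩ : (_ : M) × ℕ))
    · rintro ⟨y, t⟩ hp
      rw [Finset.mem_sigma, Finset.mem_range] at hp
      rw [hmemF]
      exact ⟨hRmove y hp.1 t, (D.lt_cnt_iff hvpos y t).1 hp.2⟩
    · intro z hz
      rw [hmemF] at hz
      have h1 := hbase_add z hz.1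
      rw [Finset.mem_sigma, Finset.mem_range, hmemY]
      refine ⟨⟨⟨H2 z hz.1 _ le_rfl, ?_⟩, ?_⟩, ?_⟩
      · refine le_trans ?_ hz.2
        conv_rhs => rw [← h1]
        exact le_add_of_nonneg_right (D.nonneg _)
      · simp [hbase]
      · rw [hr]
        simp only
        rw [D.lt_cnt_iff hvpos, h1]
        exact hz.2
    · rintro ⟨y, t⟩ hp
      rw [Finset.mem_sigma] at hp
      have h1 := hbase_of y hp.1 t
      have h2 := hcoord y hp.1 t
      simp only
      rw [h1, h2]
      simp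
    · intro z hz
      rw [hmemF] at hz
      exact hbase_add z hz.1
    · intro _ _; rfl
  -- one line at a time
  have hline : ∀ y ∈ Y, ∑ t ∈ range (r y), 2 * D.h (y + t • v) + (if P y then 2 else 0)
      ≤ ∑ t ∈ range (r y), (D.h 0 + 1)
        + (if P y then 2 * D.ell hW (y + r y • v) else 0) := by
    intro y hy
    have hy' := (hmemY y).1 hy
    have hle : ∀ t < r y, y + t • v ≤ D.f := fun t ht => (D.lt_cnt_iff hvpos y t).1 ht
    have hgt : D.f < y + r y • v := (D.cnt_le_iff hvpos y _).1 le_rfl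
    have hrpos : 1 ≤ r y := (D.lt_cnt_iff hvpos y 0).2 (by simpa using hy'.1.2)
    rw [Finset.sum_const, Finset.card_range, smul_eq_mul]
    split_ifs with hP
    · obtain ⟨h1, h2⟩ := H4 y hy'.1.1 hy'.2 hy'.1.2 hP
      have hA : y + r y • v ∈ D.A :=
        ⟨D.mem_of_gt hgt, h1, fun u _ => H3 _ (hRmove y hy _) u⟩
      exact D.line1 hW hrpos hle hgt hA h2
    · have := D.line2 hle hgt (H5 y hy'.1.1 hy'.2 hy'.1.2 hP)
      omega
  have htot := Finset.sum_le_sum hline
  rw [Finset.sum_add_distrib, Finset.sum_add_distrib, hsum (fun z => 2 * D.h z),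
    hsum (fun _ => D.h 0 + 1)] at htot
  have h1 : ∑ y ∈ Y, (if P y then 2 else 0)
      = 2 * (F.filter (fun y => c y j = c0 ∧ P y)).card := by
    rw [← Finset.sum_filter, Finset.sum_const, hY, Finset.filter_filter, smul_eq_mul, mul_comm]
  have h2 : ∑ y ∈ Y, (if P y then 2 * D.ell hW (y + r y • v) else 0)
      ≤ ∑ z ∈ (D.T0 hW).filter R, 2 * D.ell hW z := by
    rw [← Finset.sum_filter]
    have hinj : Set.InjOn (fun y => y + r y • v) ↑(Y.filter P) := by
      intro x hx y hy hxy
      simp only [Finset.coe_filter, Set.mem_ofPred_eq] at hx hy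
      simp only at hxy
      rw [← hbase_of x hx.1 (r x), hxy, hbase_of y hy.1 (r y)]
    rw [← Finset.sum_image (f := fun z => 2 * D.ell hW z) hinj]
    apply Finset.sum_le_sum_of_subset
    intro z hz
    obtain ⟨y, hy, rfl⟩ := Finset.mem_image.1 hz
    rw [Finset.mem_filter] at hy
    have hy' := (hmemY y).1 hy.1
    rw [Finset.mem_filter, D.mem_T0]
    have hgt : D.f < y + r y • v := (D.cnt_le_iff hvpos y _).1 le_rfl
    exact ⟨⟨⟨(H4 y hy'.1.1 hy'.2 hy'.1.2 hy.2).1, H3 _ (hRmove y hy.1 _)⟩, hgt⟩,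
      hRmove y hy.1 _⟩
  omega

end fin

end Data

end Pool.Agent.Helper28.Wilf
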