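import Pool.Agent.Helper28.Wilf.Family

set_option autoImplicit false

/-!
The geometric inequality in dimension at least two.
-/

namespace Pool.Agent.Helper28.Wilf

open Finset

namespace Data

variable {M : Type*} [AddCommMonoid M] [LinearOrder M] [IsOrderedCancelAddMonoid M] (D : Data M)
variable {d : ℕ} (c : M ≃+ (Fin d → ℕ))

include c in
theorem W_finite : D.W.Finite := by
  classical
  set N : Fin d → ℕ := fun i => D.cnt (e c i) 0 with hN
  have hgt : ∀ i, D.f < N i • e c i := by
    intro i
    have := (D.cnt_le_iff (D.e_pos c i) 0 (N i)).1 le_rfl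
    simpa using this
  apply ((Set.finite_Iic (fun i => 2 * N i)).image c.symm).subset
  intro x hx
  refine ⟨c x, ?_, by simp⟩
  rw [Set.mem_Iic]
  intro i
  by_contra hcon0
  have hcon : 2 * N i < c x i := not_le.1 hcon0
  have hNe : N i • e c i ≠ 0 := by
    intro h
    have := hgt i
    rw [h] at this
    exact absurd this (not_lt.2 (D.nonneg _))
  have hcN : c (N i • e c i) = N i • Pi.single i 1 := by rw [map_nsmul, c_e]
  obtain ⟨u, hu⟩ := (exists_add_iff c (N i • e c i) x).2 (by
    rw [hcN]; intro l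
    by_cases hl : l = i
    · subst hl; simp; omega
    · simp [hl])
  have h1 := hx _ (D.mem_of_gt (hgt i)) hNe u hu
  have h2 : N i • e c i ≤ u := by
    apply D.le_of_c_le c
    rw [hcN]; intro l
    by_cases hl : l = i
    · subst hl
      have h3 : c x l = c u l + N l := by
        rw [← hu, map_add, hcN]; simp
      simp; omega
    · simp [hl]
  exact absurd ((hgt i).trans_le h2) (not_lt.2 h1)

theorem cμ_ne : c D.μ ≠ 0 := by
  intro h
  exact D.μ_ne (c.map_eq_zero_iff.1 h)

theorem notDiv_iff (z : M) : (∀ u, u + D.μ ≠ z) ↔ ¬ c D.μ ≤ c z := by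
  rw [← exists_add_iff]; push Not; rfl

section fin

variable (hW : D.W.Finite)

/-- endpoint facts when the step is at most `μ`. -/
theorem endpoint_small {y v : M} (hv : 0 < v) (hvμ : v ≤ D.μ) (hy : y ≤ D.f) :
    y + D.cnt v y • v ∈ D.W ∧ y + D.cnt v y • v ≤ D.f + D.μ := by
  have hr : 1 ≤ D.cnt v y := (D.lt_cnt_iff hv y 0).2 (by simpa using hy)
  have h1 : y + (D.cnt v y - 1) • v ≤ D.f := (D.lt_cnt_iff hv y _).1 (by omega)
  have h2 : y + D.cnt v y • v = y + (D.cnt v y - 1) • v + v := by
    have : D.cnt v y = (D.cnt v y - 1) + 1 := by omega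
    conv_lhs => rw [this, succ_nsmul]
    rw [← add_assoc]
  refine ⟨?_, ?_⟩
  · intro s hs hs0 u hu
    have h3 : u + v ≤ y + (D.cnt v y - 1) • v + v := by
      rw [← h2, ← hu]
      exact add_le_add_right (hvμ.trans (D.μ_le s hs hs0)) u
    exact (le_of_add_le_add_right h3).trans h1
  · rw [h2]; exact add_le_add h1 hvμ

theorem zero_mem_TP : (0 : M) ∈ D.TP hW := (D.mem_TP hW 0).2 ⟨D.zero_mem_T, D.nonneg _⟩

/-- Case 1a: some axis not in the support of `μ` has its unit vector at most `μ`. -/
theorem geom_case1 (i : Fin d) (hi : c D.μ i = 0) (hle : e c i ≤ D.μ) :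
    ∑ z ∈ D.TP hW, 2 * D.h z + 2
      ≤ ∑ _z ∈ D.TP hW, (D.h 0 + 1) + ∑ z ∈ D.T0 hW, 2 * D.ell hW z := by
  classical
  have key := D.family c hW i 0 (fun z => ∀ u, u + D.μ ≠ z) (fun _ => True)
    (fun _ _ => Nat.zero_le _)
    (by
      intro z hz k _
      rw [notDiv_iff D c] at hz ⊢
      intro hcon
      apply hz
      intro l
      by_cases hl : l = i
      · subst hl; rw [hi]; exact Nat.zero_le _
      · have := hcon l
        rw [AddEquiv.apply_symm_apply, Function.update_of_ne hl] at this
        exact this)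
    (fun _ hz => hz)
    (by
      intro y _ _ hyf _
      have := D.endpoint_small (D.e_pos c i) hle hyf
      exact ⟨this.1, Or.inr this.2⟩)
    (by intro _ _ _ _ h; exact absurd trivial h)
  have h1 : (D.TP hW).filter (fun z => ∀ u, u + D.μ ≠ z) = D.TP hW := by
    apply Finset.filter_true_of_mem
    intro z hz; exact ((D.mem_TP hW z).1 hz).1.2
  have h2 : (D.T0 hW).filter (fun z => ∀ u, u + D.μ ≠ z) = D.T0 hW := by
    apply Finset.filter_true_of_mem
    intro z hz; exact ((D.mem_T0 hW z).1 hz).1.2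
  rw [h1, h2] at key
  have h3 : 1 ≤ ((D.TP hW).filter (fun y => c y i = 0 ∧ True)).card := by
    apply Finset.card_pos.2
    exact ⟨0, by rw [Finset.mem_filter]; exact ⟨D.zero_mem_TP hW, by simp⟩⟩
  omega

/-- Case 1b: the support of `μ` has at least two elements. -/
theorem geom_case2 (i k : Fin d) (hik : i ≠ k) (hi : c D.μ i ≠ 0) (hk : c D.μ k ≠ 0) :
    ∑ z ∈ D.TP hW, 2 * D.h z + 2
      ≤ ∑ _z ∈ D.TP hW, (D.h 0 + 1) + ∑ z ∈ D.T0 hW, 2 * D.ell hW z := by
  classical
  have hle : ∀ j : Fin d, c D.μ j ≠ 0 → e c j ≤ D.μ := by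
    intro j hj
    apply D.le_of_c_le c
    rw [c_e]; intro l
    by_cases hl : l = j
    · subst hl; simp; omega
    · simp [hl]
  obtain ⟨R1, hR1⟩ : ∃ R : M → Prop, ∀ z, R z ↔ ∃ l, l ≠ i ∧ c z l < c D.μ l :=
    ⟨_, fun _ => Iff.rfl⟩
  obtain ⟨R2, hR2⟩ : ∃ R : M → Prop, ∀ z, R z ↔
      (∀ l, l ≠ i → c D.μ l ≤ c z l) ∧ c z i < c D.μ i := ⟨_, fun _ => Iff.rfl⟩
  have key1 := D.family c hW i 0 R1 (fun _ => True)
    (fun _ _ => Nat.zero_le _)
    (by
      intro z hz k' _
      obtain ⟨l, hl, hlz⟩ := (hR1 z).1 hz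
      rw [hR1]
      refine ⟨l, hl, ?_⟩
      rw [AddEquiv.apply_symm_apply, Function.update_of_ne hl]
      exact hlz)
    (by
      intro z hz
      obtain ⟨l, hl, hlz⟩ := (hR1 z).1 hz
      rw [notDiv_iff D c]
      intro hcon
      exact absurd (hcon l) (not_le.2 hlz))
    (by
      intro y _ _ hyf _
      have := D.endpoint_small (D.e_pos c i) (hle i hi) hyf
      exact ⟨this.1, Or.inr this.2⟩)
    (by intro _ _ _ _ h; exact absurd trivial h)
  have key2 := D.family c hW k (c D.μ k) R2 (fun _ => True)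
    (fun z hz => ((hR2 z).1 hz).1 k hik.symm)
    (by
      intro z hz k' hk'
      obtain ⟨h1, h2⟩ := (hR2 z).1 hz
      rw [hR2]
      refine ⟨?_, ?_⟩
      · intro l hl
        rw [AddEquiv.apply_symm_apply]
        by_cases hlk : l = k
        · subst hlk; simpa using hk'
        · rw [Function.update_of_ne hlk]; exact h1 l hl
      · rw [AddEquiv.apply_symm_apply, Function.update_of_ne hik]
        exact h2)
    (by
      intro z hz
      obtain ⟨-, h2⟩ := (hR2 z).1 hz
      rw [notDiv_iff D c]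
      intro hcon
      exact absurd (hcon i) (not_le.2 h2))
    (by
      intro y _ _ hyf _
      have := D.endpoint_small (D.e_pos c k) (hle k hk) hyf
      exact ⟨this.1, Or.inr this.2⟩)
    (by intro _ _ _ _ h; exact absurd trivial h)
  -- `R2` is the complement of `R1` on `T`
  have hcompl : ∀ z, (∀ u, u + D.μ ≠ z) → (R2 z ↔ ¬ R1 z) := by
    intro z hz
    rw [notDiv_iff D c] at hz
    rw [hR1, hR2]
    constructor
    · rintro ⟨h1, h2⟩ ⟨l, hl, hlz⟩
      exact absurd (h1 l hl) (not_le.2 hlz)
    · intro h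
      push Not at h
      refine ⟨h, ?_⟩
      by_contra hcon
      push Not at hcon
      apply hz
      intro l
      by_cases hl : l = i
      · rw [hl]; exact hcon
      · exact h l hl
  have hf1 : (D.TP hW).filter R2 = (D.TP hW).filter (fun z => ¬ R1 z) := by
    apply Finset.filter_congr
    intro z hz; exact hcompl z ((D.mem_TP hW z).1 hz).1.2
  have hf2 : (D.T0 hW).filter R2 = (D.T0 hW).filter (fun z => ¬ R1 z) := by
    apply Finset.filter_congr
    intro z hz; exact hcompl z ((D.mem_T0 hW z).1 hz).1.2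
  have s1 : ∑ z ∈ (D.TP hW).filter R1, 2 * D.h z + ∑ z ∈ (D.TP hW).filter R2, 2 * D.h z
      = ∑ z ∈ D.TP hW, 2 * D.h z := by
    rw [hf1]
    exact Finset.sum_filter_add_sum_filter_not (D.TP hW) R1 (fun z => 2 * D.h z)
  have s2 : ∑ _z ∈ (D.TP hW).filter R1, (D.h 0 + 1) + ∑ _z ∈ (D.TP hW).filter R2, (D.h 0 + 1)
      = ∑ _z ∈ D.TP hW, (D.h 0 + 1) := by
    rw [hf1]
    exact Finset.sum_filter_add_sum_filter_not (D.TP hW) R1 (fun _ => D.h 0 + 1)
  have s3 : ∑ z ∈ (D.T0 hW).filter R1, 2 * D.ell hW z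
      + ∑ z ∈ (D.T0 hW).filter R2, 2 * D.ell hW z = ∑ z ∈ D.T0 hW, 2 * D.ell hW z := by
    rw [hf2]
    exact Finset.sum_filter_add_sum_filter_not (D.T0 hW) R1 (fun z => 2 * D.ell hW z)
  have h3 : 1 ≤ (((D.TP hW).filter R1).filter (fun y => c y i = 0 ∧ True)).card := by
    apply Finset.card_pos.2
    refine ⟨0, ?_⟩
    rw [Finset.mem_filter, Finset.mem_filter]
    refine ⟨⟨D.zero_mem_TP hW, (hR1 0).2 ⟨k, hik.symm, ?_⟩⟩, by simp⟩
    rw [map_zero]
    exact Nat.pos_of_ne_zero hk
  omega

/-- Case 2: `μ` lies on one axis and the unit vectors of all other axes exceed `μ`. -/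
theorem geom_case3 (i0 i : Fin d) (hsup : ∀ l, l ≠ i0 → c D.μ l = 0)
    (hii : i ≠ i0) (hmin : ∀ l, l ≠ i0 → e c i ≤ e c l) :
    ∑ z ∈ D.TP hW, 2 * D.h z + 2
      ≤ ∑ _z ∈ D.TP hW, (D.h 0 + 1) + ∑ z ∈ D.T0 hW, 2 * D.ell hW z := by
  classical
  have hdiv : ∀ z, (∀ u, u + D.μ ≠ z) ↔ c z i0 < c D.μ i0 := by
    intro z
    rw [notDiv_iff D c]
    constructor
    · intro h
      by_contra hcon
      push Not at hcon
      apply h
      intro l
      by_cases hl : l = i0
      · rw [hl]; exact hcon
      · rw [hsup l hl]; exact Nat.zero_le _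
    · intro h hcon
      exact absurd (hcon i0) (not_le.2 h)
  have key := D.family c hW i 0 (fun z => ∀ u, u + D.μ ≠ z) (fun y => ¬ e c i ≤ y)
    (fun _ _ => Nat.zero_le _)
    (by
      intro z hz k _
      rw [hdiv] at hz ⊢
      rw [AddEquiv.apply_symm_apply, Function.update_of_ne hii.symm]
      exact hz)
    (fun _ hz => hz)
    (by
      intro y hRy hyi hyf hP
      rw [hdiv] at hRy
      set v := e c i with hv
      have hvpos : 0 < v := D.e_pos c i
      set r := D.cnt v y with hr
      have hgt : D.f < y + r • v := (D.cnt_le_iff hvpos y _).1 le_rfl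
      have hrpos : 1 ≤ r := (D.lt_cnt_iff hvpos y 0).2 (by simpa using hyf)
      have hlast : y + (r - 1) • v ≤ D.f := (D.lt_cnt_iff hvpos y _).1 (by omega)
      -- all coordinates of `y` other than `i0` vanish
      have hy0 : ∀ l, l ≠ i0 → c y l = 0 := by
        intro l hl
        by_contra hcon
        apply hP
        refine (hmin l hl).trans ?_
        apply D.le_of_c_le c
        rw [c_e]; intro l'
        by_cases hl' : l' = l
        · subst hl'; simp; omega
        · simp [hl']
      -- every nonzero `s ∈ S` below the endpoint uses the direction `i`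
      have hK : ∀ s ∈ D.S, s ≠ 0 → c s ≤ c (y + r • v) → 1 ≤ c s i := by
        intro s hs hs0 hsz
        by_contra hcon
        have hsi : c s i = 0 := by omega
        have hsy : ∀ l, c s l ≤ c y l := by
          intro l
          by_cases hl : l = i
          · rw [hl, hsi]; exact Nat.zero_le _
          · have := hsz l
            rw [hv, c_add_nsmul, Function.update_of_ne hl] at this
            exact this
        have hsμ : s ≤ D.μ := by
          apply D.le_of_c_le c
          intro l
          by_cases hl : l = i0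
          · rw [hl]; exact (hsy i0).trans hRy.le
          · have := hsy l
            rw [hy0 l hl] at this
            exact this.trans (Nat.zero_le _)
        have hEq : s = D.μ := le_antisymm hsμ (D.μ_le s hs hs0)
        have := hsy i0
        rw [hEq] at this
        omega
      have hWz : y + r • v ∈ D.W := by
        intro s hs hs0 u hu
        have hcs : c s ≤ c (y + r • v) := (exists_add_iff c s _).1 ⟨u, hu⟩
        have h1 := hK s hs hs0 hcs
        obtain ⟨s', hs'⟩ := (exists_add_iff c v s).2 (by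
          rw [hv, c_e]; intro l
          by_cases hl : l = i
          · subst hl; simp; omega
          · simp [hl])
        have h2 : (u + s') + v = y + (r - 1) • v + v := by
          have h3 : y + r • v = y + (r - 1) • v + v := by
            have : r = (r - 1) + 1 := by omega
            conv_lhs => rw [this, succ_nsmul]
            rw [← add_assoc]
          rw [← h3, ← hu, ← hs', add_assoc]
        have h4 := add_right_cancel h2
        calc u ≤ u + s' := le_add_of_nonneg_right (D.nonneg s')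
          _ ≤ D.f := by rw [h4]; exact hlast
      refine ⟨hWz, Or.inl ?_⟩
      have hnd : ∀ u, u + D.μ ≠ y + r • v := by
        rw [hdiv, hv, c_add_nsmul, Function.update_of_ne hii.symm]
        exact hRy
      have hA : y + r • v ∈ D.A := ⟨D.mem_of_gt hgt, hWz, fun u _ => hnd u⟩
      have hval := D.val_lam hW hA
      have hci : ∑ g : D.GF hW, D.lam hW (y + r • v) g * c (g : M) i = r := by
        have h1 : c (D.val hW (D.lam hW (y + r • v))) i = r := by
          rw [hval, hv, c_add_nsmul, Function.update_self, hyi, zero_add]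
        rw [val, map_sum, Finset.sum_apply] at h1
        refine Eq.trans ?_ h1
        apply Finset.sum_congr rfl
        intro g _
        rw [map_nsmul]; simp
      calc D.len hW (y + r • v) = ∑ g : D.GF hW, D.lam hW (y + r • v) g := rfl
        _ ≤ ∑ g : D.GF hW, D.lam hW (y + r • v) g * c (g : M) i := by
          apply Finset.sum_le_sum
          intro g _
          rcases Nat.eq_zero_or_pos (D.lam hW (y + r • v) g) with h0 | h0
          · rw [h0]; simp
          · have hp := (D.pred_spec hW hA g h0).1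
            have hg := (D.mem_GF hW g).1 g.2
            have hcg : c (g : M) ≤ c (y + r • v) := (exists_add_iff c _ _).1 ⟨_, hp⟩
            exact Nat.le_mul_of_pos_right _ (hK g hg.1.1 hg.2.2.1 hcg)
        _ = r := hci)
    (by
      intro y _ _ _ h
      exact not_not.1 h)
  have h1 : (D.TP hW).filter (fun z => ∀ u, u + D.μ ≠ z) = D.TP hW := by
    apply Finset.filter_true_of_mem
    intro z hz; exact ((D.mem_TP hW z).1 hz).1.2
  have h2 : (D.T0 hW).filter (fun z => ∀ u, u + D.μ ≠ z) = D.T0 hW := by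
    apply Finset.filter_true_of_mem
    intro z hz; exact ((D.mem_T0 hW z).1 hz).1.2
  rw [h1, h2] at key
  have h3 : 1 ≤ ((D.TP hW).filter (fun y => c y i = 0 ∧ ¬ e c i ≤ y)).card := by
    apply Finset.card_pos.2
    refine ⟨0, ?_⟩
    rw [Finset.mem_filter]
    refine ⟨D.zero_mem_TP hW, by simp, ?_⟩
    exact not_le.2 (D.e_pos c i)
  omega

include c in
theorem geom (hd : 2 ≤ d) :
    ∑ z ∈ D.TP hW, 2 * D.h z + 2
      ≤ ∑ _z ∈ D.TP hW, (D.h 0 + 1) + ∑ z ∈ D.T0 hW, 2 * D.ell hW z := by
  classical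
  by_cases hA : ∃ i, c D.μ i = 0 ∧ e c i ≤ D.μ
  · obtain ⟨i, hi, hle⟩ := hA
    exact D.geom_case1 c hW i hi hle
  by_cases hB : ∃ i k, i ≠ k ∧ c D.μ i ≠ 0 ∧ c D.μ k ≠ 0
  · obtain ⟨i, k, hik, hi, hk⟩ := hB
    exact D.geom_case2 c hW i k hik hi hk
  push Not at hB
  obtain ⟨i0, hi0⟩ : ∃ i0, c D.μ i0 ≠ 0 := by
    by_contra hcon
    push Not at hcon
    exact D.cμ_ne c (funext hcon)
  have hsup : ∀ l, l ≠ i0 → c D.μ l = 0 := fun l hl => hB i0 l (Ne.symm hl) hi0
  have hne : ((Finset.univ : Finset (Fin d)).erase i0).Nonempty := by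
    rw [← Finset.card_pos, Finset.card_erase_of_mem (Finset.mem_univ _), Finset.card_univ,
      Fintype.card_fin]
    omega
  obtain ⟨i, hi, hmin⟩ := Finset.exists_min_image _ (fun l => e c l) hne
  exact D.geom_case3 c hW i0 i hsup (Finset.ne_of_mem_erase hi)
    (fun l hl => hmin l (Finset.mem_erase.2 ⟨hl, Finset.mem_univ _⟩))

end fin

end Data

end Pool.Agent.Helper28.Wilf
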