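import Pool.Agent.Helper28.Wilf.Reduce

set_option autoImplicit false

/-!
Pairing along lines.
-/

namespace Pool.Agent.Helper28.Wilf

open Finset

namespace Data

variable {M : Type*} [AddCommMonoid M] [LinearOrder M] [IsOrderedCancelAddMonoid M] (D : Data M)

include D in
theorem exists_nsmul_gt (b x v : M) (hv : 0 < v) : ∃ k : ℕ, b < x + k • v := by
  by_contra h
  push Not at h
  have hinj : Function.Injective (fun k : ℕ => x + k • v) := by
    intro a b hab
    exact (nsmul_left_strictMono hv).injective (add_left_cancel hab)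
  exact Set.infinite_of_injective_forall_mem hinj (fun k => (h k : x + k • v ∈ Set.Iic b))
    (D.fin b)

theorem h_zero_of_gt {z : M} (hz : D.f < z) : D.h z = 0 := by
  have := (D.h_le z 0).2 (by simpa using hz)
  omega

theorem h_le_zero (y : M) : D.h y ≤ D.h 0 := D.h_anti (D.nonneg y)

section fin

variable (hW : D.W.Finite)

theorem line1 {y v : M} {r : ℕ} (hr : 1 ≤ r) (hle : ∀ t < r, y + t • v ≤ D.f)
    (hgt : D.f < y + r • v) (hA : y + r • v ∈ D.A)
    (hlen : D.len hW (y + r • v) ≤ r ∨ y + r • v ≤ D.f + D.μ) :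
    ∑ t ∈ range r, 2 * D.h (y + t • v) + 2
      ≤ r * (D.h 0 + 1) + 2 * D.ell hW (y + r • v) := by
  classical
  obtain ⟨s, rfl⟩ : ∃ s, r = s + 1 := ⟨r - 1, by omega⟩
  set z := y + (s + 1) • v with hz
  have hz0 : z ≠ 0 := by
    intro h
    rw [h] at hgt
    exact absurd hgt (not_lt.2 (D.nonneg _))
  have hhz : D.h z = 0 := D.h_zero_of_gt hgt
  -- the largest `j` with `f + j μ < z`
  have hex : ∃ j : ℕ, z ≤ D.f + (j + 1) • D.μ := by
    obtain ⟨k, hk⟩ := D.exists_nsmul_gt z D.f D.μ D.μ_pos
    exact ⟨k, hk.le.trans (add_le_add_right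
      (nsmul_le_nsmul_left D.μ_pos.le (Nat.le_succ k)) _)⟩
  set j := Nat.find hex with hj
  have hj1 : z ≤ D.f + (j + 1) • D.μ := Nat.find_spec hex
  have hj2 : D.f + j • D.μ < z := by
    rcases Nat.eq_zero_or_pos j with h0 | h0
    · rw [h0]; simpa using hgt
    · have := Nat.find_min hex (m := j - 1) (by omega)
      have h1 : j - 1 + 1 = j := by omega
      rw [h1] at this
      exact not_le.1 this
  have hb := D.bound hW hA hz0 (j + 1) (by rw [hhz]; simpa using hj1)
  have hle1 := D.len_le_exc hW hA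
  have hlp := D.len_pos hW hA hz0
  have hmul : (D.len hW z - 1) * j ≤ s * j := by
    rcases hlen with h | h
    · exact Nat.mul_le_mul_right _ (by omega)
    · have : j = 0 := by
        have := Nat.find_min' hex (m := 0) (by simpa using h)
        omega
      rw [this]; simp
  have hkey : D.h 0 + 1 ≤ s * j + 2 * D.exc hW z := by
    rw [hhz] at hb
    have : (D.len hW z - 1) * (j + 1) = (D.len hW z - 1) * j + (D.len hW z - 1) := by ring
    omega
  -- pairing
  have hpair : ∀ t ∈ range s, D.h (y + (t + 1) • v) + D.h (y + (s - 1 - t + 1) • v) + j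
      ≤ D.h y + 1 := by
    intro t ht
    rw [Finset.mem_range] at ht
    have h1 : y + (t + 1) • v ≤ D.f := hle _ (by omega)
    have h2 : y + (s - 1 - t + 1) • v ≤ D.f := hle _ (by omega)
    have h3 := (D.h_pos_iff _).2 h1
    have h4 := (D.h_pos_iff _).2 h2
    have h5 := (D.lt_h (y + (t + 1) • v) (D.h (y + (t + 1) • v) - 1)).1 (by omega)
    have h6 := (D.lt_h (y + (s - 1 - t + 1) • v) (D.h (y + (s - 1 - t + 1) • v) - 1)).1 (by omega)
    set a := D.h (y + (t + 1) • v) with ha
    set b := D.h (y + (s - 1 - t + 1) • v) with hb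
    have h7 : y + (a - 1 + (b - 1) + j) • D.μ < D.f := by
      have h8 : (y + (a - 1 + (b - 1) + j) • D.μ) + D.f
          < (y + (t + 1) • v + (a - 1) • D.μ) + (y + (s - 1 - t + 1) • v + (b - 1) • D.μ) := by
        have h9 : (y + (t + 1) • v + (a - 1) • D.μ) + (y + (s - 1 - t + 1) • v + (b - 1) • D.μ)
            = (y + (a - 1 + (b - 1)) • D.μ) + z := by
          rw [hz, add_nsmul _ (a - 1) (b - 1)]
          have h10 : (s + 1) • v = (t + 1) • v + (s - 1 - t + 1) • v := by
            rw [← add_nsmul]; congr 1; omega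
          rw [h10]; abel
        have h11 : (y + (a - 1 + (b - 1) + j) • D.μ) + D.f
            = (y + (a - 1 + (b - 1)) • D.μ) + (D.f + j • D.μ) := by
          rw [add_nsmul]; abel
        rw [h9, h11]
        exact add_lt_add_right hj2 _
      have h12 := h8.trans_le (add_le_add h5 h6)
      exact lt_of_add_lt_add_right h12
    have h8 := (D.lt_h y _).2 h7.le
    omega
  have hsum : 2 * ∑ t ∈ range s, D.h (y + (t + 1) • v) + s * j ≤ s * (D.h y + 1) := by
    have h1 := Finset.sum_le_sum hpair
    rw [Finset.sum_add_distrib, Finset.sum_add_distrib,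
      Finset.sum_range_reflect (fun t => D.h (y + (t + 1) • v)) s] at h1
    simp only [Finset.sum_const, Finset.card_range, smul_eq_mul] at h1
    omega
  have hy := D.h_le_zero y
  have hmul2 : s * (D.h y + 1) ≤ s * (D.h 0 + 1) := Nat.mul_le_mul_left _ (by omega)
  rw [D.ell_eq, hhz, Finset.sum_range_succ', ← Finset.mul_sum]
  simp only [zero_nsmul, add_zero]
  have : (s + 1) * (D.h 0 + 1) = s * (D.h 0 + 1) + (D.h 0 + 1) := by ring
  omega

theorem line2 {y v : M} {r : ℕ} (hle : ∀ t < r, y + t • v ≤ D.f)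
    (hgt : D.f < y + r • v) (hv : v ≤ y) :
    ∑ t ∈ range r, 2 * D.h (y + t • v) ≤ r * (D.h 0 + 1) := by
  classical
  have hpair : ∀ t ∈ range r, D.h (y + t • v) + D.h (y + (r - 1 - t) • v) ≤ D.h 0 + 1 := by
    intro t ht
    rw [Finset.mem_range] at ht
    have h1 : y + t • v ≤ D.f := hle _ (by omega)
    have h2 : y + (r - 1 - t) • v ≤ D.f := hle _ (by omega)
    have h3 := (D.h_pos_iff _).2 h1
    have h4 := (D.h_pos_iff _).2 h2
    have h5 := (D.lt_h (y + t • v) (D.h (y + t • v) - 1)).1 (by omega)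
    have h6 := (D.lt_h (y + (r - 1 - t) • v) (D.h (y + (r - 1 - t) • v) - 1)).1 (by omega)
    set a := D.h (y + t • v) with ha
    set b := D.h (y + (r - 1 - t) • v) with hb
    have h7 : 0 + (a - 1 + (b - 1)) • D.μ < D.f := by
      have h8 : (0 + (a - 1 + (b - 1)) • D.μ) + D.f
          < (y + t • v + (a - 1) • D.μ) + (y + (r - 1 - t) • v + (b - 1) • D.μ) := by
        have h9 : (y + t • v + (a - 1) • D.μ) + (y + (r - 1 - t) • v + (b - 1) • D.μ)
            = (0 + (a - 1 + (b - 1)) • D.μ) + (y + (y + (r - 1) • v)) := by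
          rw [add_nsmul _ (a - 1) (b - 1)]
          have h10 : (r - 1) • v = t • v + (r - 1 - t) • v := by
            rw [← add_nsmul]; congr 1; omega
          rw [h10]; abel
        rw [h9]
        apply add_lt_add_right
        have h11 : y + r • v = v + (y + (r - 1) • v) := by
          have h12 : r = (r - 1) + 1 := by omega
          conv_lhs => rw [h12, succ_nsmul]
          abel
        rw [h11] at hgt
        exact hgt.trans_le (add_le_add_left hv _)
      have h12 := h8.trans_le (add_le_add h5 h6)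
      exact lt_of_add_lt_add_right h12
    have h8 := (D.lt_h 0 _).2 h7.le
    omega
  have h1 := Finset.sum_le_sum hpair
  rw [Finset.sum_add_distrib, Finset.sum_range_reflect (fun t => D.h (y + t • v)) r] at h1
  simp only [Finset.sum_const, Finset.card_range, smul_eq_mul] at h1
  rw [← Finset.mul_sum]
  omega

end fin

end Data

end Pool.Agent.Helper28.Wilf
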