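import Pool.Agent.Helper28.Wilf.Count

set_option autoImplicit false

/-!
Reduction of the main inequality to the geometric inequality on `T`.
-/

namespace Pool.Agent.Helper28.Wilf

open Finset

namespace Data

variable {M : Type*} [AddCommMonoid M] [LinearOrder M] [IsOrderedCancelAddMonoid M] (D : Data M)

section fin

variable (hW : D.W.Finite)

/-- the lower set of `f` -/
noncomputable def BF : Finset M := (D.fin D.f).toFinset

/-- elements of `S` below `f` -/
noncomputable def SB : Finset M := by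
  classical exact D.BF.filter (fun x => x ∈ D.S)

/-- elements of `T` below `f` -/
noncomputable def TP : Finset M := (D.TF hW).filter (fun z => z ≤ D.f)

/-- elements of `T` above `f` -/
noncomputable def T0 : Finset M := (D.TF hW).filter (fun z => ¬ z ≤ D.f)

theorem mem_BF (x : M) : x ∈ D.BF ↔ x ≤ D.f := by simp [BF]

theorem mem_SB (x : M) : x ∈ D.SB ↔ x ≤ D.f ∧ x ∈ D.S := by simp [SB, mem_BF]

theorem mem_TP (x : M) : x ∈ D.TP hW ↔ x ∈ D.T ∧ x ≤ D.f := by simp [TP, mem_TF]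

theorem mem_T0 (x : M) : x ∈ D.T0 hW ↔ x ∈ D.T ∧ D.f < x := by simp [T0, mem_TF]

theorem card_BF_le : D.BF.card ≤ ∑ z ∈ D.TP hW, D.h z := by
  classical
  have hsub : D.BF ⊆ (D.TP hW).biUnion
      (fun z => (Finset.range (D.h z)).image (fun k => z + k • D.μ)) := by
    intro x hx
    rw [mem_BF] at hx
    obtain ⟨z, k, hz, hk⟩ := D.exists_chain x
    have hzx : z ≤ x := by rw [← hk]; exact le_add_of_nonneg_right (D.nonneg _)
    rw [Finset.mem_biUnion]
    refine ⟨z, (D.mem_TP hW z).2 ⟨⟨D.W_of_le (hzx.trans hx), hz⟩, hzx.trans hx⟩, ?_⟩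
    rw [Finset.mem_image]
    refine ⟨k, ?_, hk⟩
    rw [Finset.mem_range, D.lt_h, hk]
    exact hx
  calc D.BF.card ≤ _ := Finset.card_le_card hsub
    _ ≤ ∑ z ∈ D.TP hW, ((Finset.range (D.h z)).image (fun k => z + k • D.μ)).card :=
        Finset.card_biUnion_le
    _ ≤ ∑ z ∈ D.TP hW, D.h z := by
        apply Finset.sum_le_sum
        intro z _
        exact Finset.card_image_le.trans (by simp)

theorem card_SB_le : D.SB.card ≤ ∑ z ∈ D.TP hW, D.h (D.ap z) := by
  classical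
  have hsub : D.SB ⊆ (D.TP hW).biUnion
      (fun z => (Finset.range (D.h (D.ap z))).image (fun k => D.ap z + k • D.μ)) := by
    intro x hx
    rw [mem_SB] at hx
    obtain ⟨z, k, hz, hk⟩ := D.exists_chain x
    have hzx : z ≤ x := by rw [← hk]; exact le_add_of_nonneg_right (D.nonneg _)
    have hσ : D.σ z ≤ k := Nat.sInf_le (by
      show z + k • D.μ ∈ D.S
      rw [hk]; exact hx.2)
    rw [Finset.mem_biUnion]
    refine ⟨z, (D.mem_TP hW z).2 ⟨⟨D.W_of_le (hzx.trans hx.1), hz⟩, hzx.trans hx.1⟩, ?_⟩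
    rw [Finset.mem_image]
    have h1 : D.ap z + (k - D.σ z) • D.μ = x := by
      rw [ap, add_assoc, ← add_nsmul]
      have : D.σ z + (k - D.σ z) = k := by omega
      rw [this, hk]
    refine ⟨k - D.σ z, ?_, h1⟩
    rw [Finset.mem_range, D.lt_h, h1]
    exact hx.1
  calc D.SB.card ≤ _ := Finset.card_le_card hsub
    _ ≤ ∑ z ∈ D.TP hW, ((Finset.range (D.h (D.ap z))).image (fun k => D.ap z + k • D.μ)).card :=
        Finset.card_biUnion_le
    _ ≤ ∑ z ∈ D.TP hW, D.h (D.ap z) := by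
        apply Finset.sum_le_sum
        intro z _
        exact Finset.card_image_le.trans (by simp)

theorem sum_h_AF_le : ∑ a ∈ D.AF hW, D.h a ≤ D.SB.card := by
  classical
  have hd : ((D.AF hW : Set M)).PairwiseDisjoint
      (fun a => (Finset.range (D.h a)).image (fun k => a + k • D.μ)) := by
    have key : ∀ a ∈ D.A, ∀ b ∈ D.A, ∀ k l : ℕ, k ≤ l → a + k • D.μ = b + l • D.μ → a = b := by
      intro a ha b hb k l hkl he
      have h1 : a = b + (l - k) • D.μ := by
        have : a + k • D.μ = b + (l - k) • D.μ + k • D.μ := by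
          rw [add_assoc, ← add_nsmul]
          have h2 : l - k + k = l := by omega
          rw [h2]; exact he
        exact add_right_cancel this
      rcases Nat.eq_zero_or_pos (l - k) with h0 | h0
      · rw [h0] at h1; simpa using h1
      · exfalso
        apply ha.2.2 (b + (l - k - 1) • D.μ)
          (D.S.add_mem hb.1 (D.S.nsmul_mem D.μ_mem _))
        rw [add_assoc, ← succ_nsmul]
        have h2 : l - k - 1 + 1 = l - k := by omega
        rw [h2]; exact h1.symm
    intro a ha b hb hab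
    rw [Function.onFun, Finset.disjoint_left]
    intro x hxa hxb
    obtain ⟨k, -, hk⟩ := Finset.mem_image.1 hxa
    obtain ⟨l, -, hl⟩ := Finset.mem_image.1 hxb
    have ha' := (D.mem_AF hW a).1 ha
    have hb' := (D.mem_AF hW b).1 hb
    rcases le_total k l with h | h
    · exact hab (key a ha' b hb' k l h (hk.trans hl.symm))
    · exact hab (key b hb' a ha' l k h (hl.trans hk.symm)).symm
  have hc : ((D.AF hW).biUnion
      (fun a => (Finset.range (D.h a)).image (fun k => a + k • D.μ))).card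
      = ∑ a ∈ D.AF hW, D.h a := by
    rw [Finset.card_biUnion (fun a ha b hb hab => hd ha hb hab)]
    apply Finset.sum_congr rfl
    intro a _
    rw [Finset.card_image_of_injective, Finset.card_range]
    intro k l hkl
    exact (nsmul_left_strictMono D.μ_pos).injective (add_left_cancel hkl)
  rw [← hc]
  apply Finset.card_le_card
  intro x hx
  obtain ⟨a, ha, hx⟩ := Finset.mem_biUnion.1 hx
  obtain ⟨k, hk, rfl⟩ := Finset.mem_image.1 hx
  rw [Finset.mem_range, D.lt_h] at hk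
  rw [mem_SB]
  exact ⟨hk, D.S.add_mem ((D.mem_AF hW a).1 ha).1 (D.S.nsmul_mem D.μ_mem _)⟩

theorem sum_ell_TF_le : ∑ z ∈ D.TF hW, D.ell hW (D.ap z) ≤ ∑ a ∈ D.AF hW, D.ell hW a := by
  classical
  have hinj : Set.InjOn D.ap ↑(D.TF hW) := by
    intro x hx y hy hxy
    exact D.ap_injOn ((D.mem_TF hW x).1 hx) ((D.mem_TF hW y).1 hy) hxy
  rw [← Finset.sum_image (f := D.ell hW) hinj]
  apply Finset.sum_le_sum_of_subset
  intro a ha
  obtain ⟨z, hz, rfl⟩ := Finset.mem_image.1 ha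
  exact (D.mem_AF hW _).2 (D.ap_mem_A ((D.mem_TF hW z).1 hz))

theorem ap_zero : D.ap 0 = 0 := by
  have : D.σ (0 : M) = 0 := by
    have := Nat.sInf_le (s := {k : ℕ | (0 : M) + k • D.μ ∈ D.S}) (m := 0)
      (by simp [D.S.zero_mem])
    exact Nat.le_zero.1 this
  rw [ap, this]; simp

theorem ap_of_gt {z : M} (hz : D.f < z) : D.ap z = z := by
  have : D.σ z = 0 := by
    have := Nat.sInf_le (s := {k : ℕ | z + k • D.μ ∈ D.S}) (m := 0)
      (by simpa using D.mem_of_gt hz)
    exact Nat.le_zero.1 this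
  rw [ap, this]; simp

theorem ap_le {z : M} (hz : z ≤ D.f) :
    D.ap z + D.h (D.ap z) • D.μ ≤ D.f + 1 • D.μ := by
  have h1 : D.ap z + D.h (D.ap z) • D.μ = z + D.h z • D.μ := by
    rw [D.h_eq z, add_nsmul, ← add_assoc, ← ap]
  have h2 : 0 < D.h z := (D.h_pos_iff z).2 hz
  have h3 : z + (D.h z - 1) • D.μ ≤ D.f := (D.lt_h z _).1 (by omega)
  rw [h1]
  have h4 : D.h z = (D.h z - 1) + 1 := by omega
  rw [h4, add_nsmul, ← add_assoc]
  exact add_le_add_left h3 _

theorem ap_ne_zero {z : M} (hz : z ≠ 0) : D.ap z ≠ 0 := by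
  intro h
  exact hz (D.add_eq_zero' h)

theorem ell_TP {z : M} (hz : z ∈ D.T) (hf : z ≤ D.f) (h0 : z ≠ 0) :
    D.h 0 + 1 + D.h (D.ap z) ≤ 2 * D.ell hW (D.ap z) := by
  have hA := D.ap_mem_A hz
  have h1 := D.bound hW hA (D.ap_ne_zero h0) 1 (D.ap_le hf)
  have h2 := D.len_le_exc hW hA
  have h3 := D.len_pos hW hA (D.ap_ne_zero h0)
  rw [D.ell_eq]
  omega

theorem lam_zero (i : D.GF hW) : D.lam hW 0 i = 0 := by
  by_contra hcon
  obtain ⟨h1, -, -⟩ := D.pred_spec hW D.zero_mem_A i (Nat.pos_of_ne_zero hcon)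
  have h2 := D.add_eq_zero' (a := (i : M)) (b := pred 0 (i : M)) (by rw [add_comm]; exact h1)
  exact ((D.mem_GF hW i).1 i.2).2.2.1 h2

theorem ell_zero : D.ell hW (D.ap 0) = D.h 0 := by
  rw [D.ap_zero, ell]
  simp [D.lam_zero hW]

/-- The reduction: the geometric inequality implies the main inequality. -/
theorem main_of_geom
    (hG : ∑ z ∈ D.TP hW, 2 * D.h z + 2
      ≤ ∑ _z ∈ D.TP hW, (D.h 0 + 1) + ∑ z ∈ D.T0 hW, 2 * D.ell hW z) :
    2 * D.BF.card + D.SB.card + 1 ≤ 2 * (D.SB.card * ((D.GF hW).card + 1)) := by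
  classical
  have h0T : (0 : M) ∈ D.TP hW := (D.mem_TP hW 0).2 ⟨D.zero_mem_T, D.nonneg _⟩
  -- split the sum over `T`
  have hsplit : ∑ z ∈ D.TF hW, D.ell hW (D.ap z)
      = ∑ z ∈ D.TP hW, D.ell hW (D.ap z) + ∑ z ∈ D.T0 hW, D.ell hW (D.ap z) :=
    (Finset.sum_filter_add_sum_filter_not (D.TF hW) (fun z => z ≤ D.f) _).symm
  have hT0 : ∑ z ∈ D.T0 hW, D.ell hW (D.ap z) = ∑ z ∈ D.T0 hW, D.ell hW z := by
    apply Finset.sum_congr rfl
    intro z hz
    rw [D.ap_of_gt ((D.mem_T0 hW z).1 hz).2]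
  -- the lower bound on the part below `f`
  have hTP : ∑ _z ∈ D.TP hW, (D.h 0 + 1) + ∑ z ∈ D.TP hW, D.h (D.ap z)
      ≤ ∑ z ∈ D.TP hW, 2 * D.ell hW (D.ap z) + 1 := by
    rw [← Finset.sum_add_distrib, ← Finset.sum_erase_add _ _ h0T, ← Finset.sum_erase_add _ _ h0T]
    have h1 : ∑ z ∈ (D.TP hW).erase 0, (D.h 0 + 1 + D.h (D.ap z))
        ≤ ∑ z ∈ (D.TP hW).erase 0, 2 * D.ell hW (D.ap z) := by
      apply Finset.sum_le_sum
      intro z hz
      rw [Finset.mem_erase] at hz
      obtain ⟨hz1, hz2⟩ := (D.mem_TP hW z).1 hz.2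
      exact D.ell_TP hW hz1 hz2 hz.1
    have h2 := D.ell_zero hW
    have h3 : D.h (D.ap 0) = D.h 0 := by rw [D.ap_zero]
    omega
  have h1 := D.card_BF_le hW
  have h2 := D.card_SB_le hW
  have h3 := D.sum_h_AF_le hW
  have h4 := D.sum_ell_TF_le hW
  have h5 := D.sum_ell_le hW
  have h6 : ((D.GF hW).card + 1) * ∑ a ∈ D.AF hW, D.h a
      ≤ D.SB.card * ((D.GF hW).card + 1) := by
    rw [mul_comm]; exact Nat.mul_le_mul_right _ h3
  simp only [← Finset.mul_sum] at hG hTP
  omega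

end fin

end Data

end Pool.Agent.Helper28.Wilf
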