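import Pool.Agent.Helper28.Wilf.Geom

set_option autoImplicit false

/-!
Transfer of the abstract inequality to `Fin d → ℕ` with an arbitrary monomial order.
-/

namespace Pool.Agent.Helper28.Wilf

open Finset

/-- a copy of `Fin d → ℕ` without its order -/
def Pt (d : ℕ) : Type := Fin d → ℕ

noncomputable instance (d : ℕ) : AddCommMonoid (Pt d) := inferInstanceAs (AddCommMonoid (Fin d → ℕ))

/-- the linear order of a monomial order -/
@[reducible] noncomputable def ptOrder {d : ℕ} (lt : Pt d → Pt d → Prop)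
    (h1 : ∀ a, ¬ lt a a) (h2 : ∀ a b c, lt a b → lt b c → lt a c)
    (h3 : ∀ a b, lt a b ∨ a = b ∨ lt b a) : LinearOrder (Pt d) :=
  { le := fun a b => a = b ∨ lt a b
    lt := lt
    le_refl := fun a => Or.inl rfl
    le_trans := by
      rintro a b c (rfl | hab) (rfl | hbc)
      · exact Or.inl rfl
      · exact Or.inr hbc
      · exact Or.inr hab
      · exact Or.inr (h2 a b c hab hbc)
    lt_iff_le_not_ge := by
      intro a b
      constructor
      · intro hab
        refine ⟨Or.inr hab, ?_⟩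
        rintro (rfl | hba)
        · exact h1 _ hab
        · exact h1 _ (h2 _ _ _ hab hba)
      · rintro ⟨rfl | hab, hn⟩
        · exact absurd (Or.inl rfl) hn
        · exact hab
    le_antisymm := by
      rintro a b (rfl | hab) (h | hba)
      · rfl
      · rfl
      · exact h.symm
      · exact absurd (h2 _ _ _ hab hba) (h1 _)
    le_total := by
      intro a b
      rcases h3 a b with h | h | h
      · exact Or.inl (Or.inr h)
      · exact Or.inl (Or.inl h)
      · exact Or.inr (Or.inr h)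
    toDecidableLE := Classical.decRel _ }

theorem transfer (d : ℕ) (hd : 2 ≤ d) (S : AddSubmonoid (Fin d → ℕ))
    (hS : {x | x ∉ S}.Finite) (lt : (Fin d → ℕ) → (Fin d → ℕ) → Prop)
    (h1 : ∀ a, ¬ lt a a) (h2 : ∀ a b c, lt a b → lt b c → lt a c)
    (h3 : ∀ a b, lt a b ∨ a = b ∨ lt b a)
    (h4 : ∀ a b c, lt a b → lt (a + c) (b + c))
    (h5 : ∀ a, a = 0 ∨ lt 0 a)
    (h6 : ∀ b, {a | lt a b}.Finite)
    (f : Fin d → ℕ) (hf : f ∉ S) (hfmax : ∀ x, x ∉ S → x = f ∨ lt x f) :
    {x | x ∈ S ∧ x ≠ 0 ∧ ∀ a ∈ S, ∀ b ∈ S, a + b = x → a = 0 ∨ b = 0}.Finite ∧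
    2 * ({x | x ∈ S ∧ lt x f}.ncard + {x | x ∉ S}.ncard) + {x | x ∈ S ∧ lt x f}.ncard + 1
      ≤ 2 * ({x | x ∈ S ∧ lt x f}.ncard *
        {x | x ∈ S ∧ x ≠ 0 ∧ ∀ a ∈ S, ∀ b ∈ S, a + b = x → a = 0 ∨ b = 0}.ncard) := by
  classical
  let LO : LinearOrder (Pt d) := ptOrder lt h1 h2 h3
  have hle : ∀ a b : Pt d, a ≤ b ↔ (a = b ∨ lt a b) := fun _ _ => Iff.rfl
  have hlt : ∀ a b : Pt d, a < b ↔ lt a b := fun _ _ => Iff.rfl
  have : IsOrderedCancelAddMonoid (Pt d) :=
    { add_le_add_left := by
        intro a b hab c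
        rcases hab with h | h
        · exact Or.inl (by rw [h])
        · exact Or.inr (h4 _ _ _ h)
      le_of_add_le_add_left := by
        intro a b c h
        by_contra hcon
        have hcon2 : lt c b := not_le.1 hcon
        have h7 := h4 _ _ a hcon2
        have h8 : a + b ≤ a + c := h
        have h9 : (a + c : Pt d) < a + b := by
          rw [hlt]
          rw [add_comm a c, add_comm a b]
          exact h7
        exact absurd h9 (not_lt.2 h8) }
  have hnonneg : ∀ x : Pt d, 0 ≤ x := by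
    intro x
    rcases h5 x with h | h
    · exact Or.inl h.symm
    · exact Or.inr h
  have hfin : ∀ b : Pt d, (Set.Iic b).Finite := by
    intro b
    apply ((h6 b).insert b).subset
    intro x hx
    rcases (hle _ _).1 (Set.mem_Iic.1 hx) with h | h
    · exact Or.inl h
    · exact Or.inr h
  -- a nonzero element of `S`
  let S' : AddSubmonoid (Pt d) := S
  obtain ⟨s0, hs0, hs0ne⟩ : ∃ s : Pt d, s ∈ S' ∧ s ≠ 0 := by
    by_contra hcon
    push Not at hcon
    have hinf : ({x : Fin d → ℕ | x ∉ S} ∪ {0}).Infinite := by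
      have : ({x : Fin d → ℕ | x ∉ S} ∪ {0}) = Set.univ := by
        apply Set.eq_univ_of_forall
        intro x
        by_cases hx : x ∈ S
        · exact Or.inr (hcon x hx)
        · exact Or.inl hx
      rw [this]
      have : Nonempty (Fin d) := ⟨⟨0, by omega⟩⟩
      exact Set.infinite_univ
    exact hinf (hS.union (Set.finite_singleton 0))
  obtain ⟨μ, hμ, hμmin⟩ : ∃ μ ∈ ((hfin s0).toFinset.filter (fun x => x ∈ S' ∧ x ≠ 0)),
      ∀ x ∈ ((hfin s0).toFinset.filter (fun x => x ∈ S' ∧ x ≠ 0)), μ ≤ x := by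
    apply Finset.exists_min_image _ (fun x => x)
    exact ⟨s0, by rw [Finset.mem_filter]; exact ⟨by simp, hs0, hs0ne⟩⟩
  rw [Finset.mem_filter] at hμ
  let D : Data (Pt d) :=
    { nonneg := hnonneg
      fin := hfin
      S := S'
      f := f
      f_notMem := hf
      le_f := fun x hx => (hle _ _).2 (hfmax x hx)
      μ := μ
      μ_mem := hμ.2.1
      μ_ne := hμ.2.2
      μ_le := by
        intro s hs hsne
        by_cases hle' : s ≤ s0
        · exact hμmin s (by rw [Finset.mem_filter]; exact ⟨by simpa using hle', hs, hsne⟩)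
        · have h7 : μ ≤ s0 := by simpa using hμ.1
          exact h7.trans (not_le.1 hle').le }
  let c : Pt d ≃+ (Fin d → ℕ) := AddEquiv.refl _
  have hW := D.W_finite c
  have hmain := D.main_of_geom hW (D.geom c hW hd)
  have hG := D.G_ncard hW
  have hGeq : D.G = {x | x ∈ S ∧ x ≠ 0 ∧ ∀ a ∈ S, ∀ b ∈ S, a + b = x → a = 0 ∨ b = 0} := rfl
  rw [← hG] at hmain
  have hSB : D.SB.card = {x | x ∈ S ∧ lt x f}.ncard := by
    rw [← Set.ncard_coe_finset]
    congr 1
    ext x
    rw [Finset.mem_coe, D.mem_SB]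
    constructor
    · rintro ⟨h7 | h7, h8⟩
      · have h9 : x = f := h7
        rw [h9] at h8
        exact absurd h8 hf
      · exact ⟨h8, h7⟩
    · rintro ⟨h7, h8⟩
      exact ⟨Or.inr h8, h7⟩
  have hBF : D.BF.card = {x | x ∈ S ∧ lt x f}.ncard + {x | x ∉ S}.ncard := by
    have hun : (↑D.BF : Set (Pt d)) = {x | x ∈ S ∧ lt x f} ∪ {x | x ∉ S} := by
      ext x
      rw [Finset.mem_coe, D.mem_BF]
      constructor
      · intro h7
        by_cases hx : x ∈ S
        · rcases h7 with h7 | h7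
          · have h9 : x = f := h7
            rw [h9] at hx
            exact absurd hx hf
          · exact Or.inl ⟨hx, h7⟩
        · exact Or.inr hx
      · rintro (⟨-, h7⟩ | h7)
        · exact Or.inr h7
        · exact hfmax x h7
    have hfin1 : ({x | x ∈ S ∧ lt x f} : Set (Fin d → ℕ)).Finite :=
      (h6 f).subset (fun x hx => hx.2)
    rw [← Set.ncard_coe_finset, hun]
    exact Set.ncard_union_eq (Set.disjoint_left.2 (fun x hx hx2 => hx2 hx.1)) hfin1 hS
  rw [hBF, hSB, hGeq] at hmain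
  refine ⟨?_, hmain⟩
  have hGfin : D.G.Finite := by
    rw [D.G_eq hW]
    exact ((D.GF hW).finite_toSet).insert _
  exact hGfin

end Pool.Agent.Helper28.Wilf
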